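import Pool.Agent.Q87.KerNorm

/-!
# MP_232e98, Q1: the Bergman kernel has a minimum certificate over the disc of radius `1/√2`

The kernel `1/(1 - 2 z w̄)` is a minimum certificate for `(1 - z w̄)⁻²` over `(1/√2)𝔻`.

Sketch.  Normalising a certificate `s' = δ δ* / (1 - F)` and its companion `h` at `0` gives kernels
`F, H` with `F = 2t - t² + (1-t)² H`, `t = z w̄`.  Averaging over `n`-th roots of unity on circles of
radius `r → 1/√2` one sees that in the limit the Fourier modes of `F` other than `0` and `1` and the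
modes `1, -1, -2` of `H` vanish.  Bessel's inequality against the modes `0` and `1` of `F` then gives
`(1 - 2t) g g* / (1 - a) - (1 - F) ≥ 0` for a function `g` without zeros and some `a < 1`, whence
`(1 - 2t)/(1 - F) ≥ 0`.
-/

set_option autoImplicit false

open scoped ComplexConjugate ComplexOrder

namespace Pool.Agent.Results.MP_232e98_an.MinimumCertificate

/-- A kernel (positive semidefinite function) on `X`. -/
def IsKernel {X : Type} (K : X → X → ℂ) : Prop :=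
  ∀ (n : ℕ) (x : Fin n → X) (c : Fin n → ℂ), 0 ≤ ∑ i, ∑ j, c i * conj (c j) * K (x i) (x j)

/-- A complete Pick kernel on `X`. -/
def IsCP {X : Type} (s : X → X → ℂ) : Prop :=
  IsKernel s ∧ (∀ z w, s z w ≠ 0) ∧
    ∃ (δ : X → ℂ) (F : X → X → ℂ), (∀ z, δ z ≠ 0) ∧ IsKernel F ∧ (∀ x, (F x x).re < 1) ∧
      ∀ z w, s z w = δ z * conj (δ w) / (1 - F z w)

/-- `s` is a certificate for `k` over `X`. -/
def IsCertificate {X : Type} (k s : X → X → ℂ) : Prop :=
  IsCP s ∧ ∃ h : X → X → ℂ, IsKernel h ∧ ∀ z w, k z w = (1 - h z w) * s z w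

/-- `s` is a minimum certificate for `k` over `X`. -/
def IsMinimumCertificate {X : Type} (k s : X → X → ℂ) : Prop :=
  IsCertificate k s ∧ ∀ s' : X → X → ℂ, IsCertificate k s' → IsKernel fun z w => s' z w / s z w

/-- The disc of radius `1/√2`. -/
abbrev Disc : Type := Metric.ball (0:ℂ) (1 / Real.sqrt 2)

/-- The Bergman kernel `(1 - z w̄)⁻²`. -/
noncomputable def bergman (z w : Disc) : ℂ := ((1 - (z : ℂ) * conj (w : ℂ)) ^ 2)⁻¹

theorem isKernel_of_psd {X : Type} {K : X → X → ℂ} (h : Q87.Ker.PSD K) : IsKernel K :=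
  fun n x c => (Q87.Ker.psd_iff.1 h) n x c

theorem psd_of_isKernel {X : Type} {K : X → X → ℂ} (h : IsKernel K) : Q87.Ker.PSD K :=
  Q87.Ker.psd_iff.2 fun n x c => h n x c

theorem s_kernel : IsKernel fun z w : Disc => (1 - 2 * Q87.KerNorm.tk z w)⁻¹ :=
  isKernel_of_psd (Q87.KerNorm.tk2_psd.inv_one_sub Q87.KerNorm.tk2_diag)

theorem h_kernel : IsKernel fun z w : Disc => Q87.KerNorm.tk z w ^ 2 *
      ((1 - Q87.KerNorm.tk z w)⁻¹ * (1 - Q87.KerNorm.tk z w)⁻¹) :=
  isKernel_of_psd Q87.KerNorm.cert_h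

theorem s_cp : IsCP fun z w : Disc => (1 - 2 * Q87.KerNorm.tk z w)⁻¹ := by
  refine ⟨s_kernel, fun z w => inv_ne_zero (Q87.KerNorm.one_sub_tk2_ne z w), fun _ => 1,
    fun z w => 2 * Q87.KerNorm.tk z w, fun _ => one_ne_zero, isKernel_of_psd Q87.KerNorm.tk2_psd,
    Q87.KerNorm.tk2_diag, fun z w => ?_⟩
  show (1 - 2 * Q87.KerNorm.tk z w)⁻¹ = 1 * conj (1 : ℂ) / (1 - 2 * Q87.KerNorm.tk z w)
  rw [map_one, one_mul, inv_eq_one_div]

theorem s_cert : IsCertificate bergman fun z w : Disc => (1 - 2 * Q87.KerNorm.tk z w)⁻¹ := by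
  refine ⟨s_cp, _, h_kernel, fun z w => ?_⟩
  have n1 := Q87.KerNorm.one_sub_tk_ne z w
  have n2 := Q87.KerNorm.one_sub_tk2_ne z w
  show ((1 - Q87.KerNorm.tk z w) ^ 2)⁻¹ = (1 - Q87.KerNorm.tk z w ^ 2 *
    ((1 - Q87.KerNorm.tk z w)⁻¹ * (1 - Q87.KerNorm.tk z w)⁻¹)) *
    (1 - 2 * Q87.KerNorm.tk z w)⁻¹
  generalize Q87.KerNorm.tk z w = t at n1 n2 ⊢
  rw [eq_mul_inv_iff_mul_eq₀ n2]
  field_simp
  ring

theorem s_min (s' : Disc → Disc → ℂ) (h' : IsCertificate bergman s') :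
    IsKernel fun z w => s' z w / (1 - 2 * Q87.KerNorm.tk z w)⁻¹ := by
  obtain ⟨⟨-, -, δ, F, hδ, hF, hF1, hs⟩, h, hh, hb⟩ := h'
  have hmin := Q87.KerNorm.minimal hδ (psd_of_isKernel hF) hF1 hs (psd_of_isKernel hh) hb
  simp only [div_inv_eq_mul]
  exact isKernel_of_psd hmin

/-- **Theorem.** `1/(1 - 2 z w̄)` is a minimum certificate for the Bergman kernel over
`(1/√2)𝔻`. -/
theorem result : IsMinimumCertificate bergman
    fun z w : Disc => (1 - 2 * ((z : ℂ) * conj (w : ℂ)))⁻¹ :=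
  ⟨s_cert, s_min⟩

end Pool.Agent.Results.MP_232e98_an.MinimumCertificate
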